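import Pool.Agent.helper16.EXG.Spec

/-!
# Row en5:GCJ (MP_561ff4_al)
-/

set_option autoImplicit false

open Finset

namespace Pool.Agent.EXC

theorem GCJ : GCJ_stmt := by
  intro n C _ F _ hβ g hg α β hα hβ2 c hgc t
  obtain ⟨-, hE1, hE2, -⟩ := f_EXF n C F hβ
  obtain ⟨-, -, -, -, -, -, -, hconj, -⟩ := hE2 (E C α) (hE1 α hα)
  obtain ⟨hXa, -, -⟩ := k_XGS n C F hβ α hα t
  obtain ⟨hXb, -, -⟩ := k_XGS n C F hβ β hβ2 (c * t)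
  obtain ⟨hXtr, -⟩ := hE2 (E C β) (hE1 β hβ2)
  obtain ⟨-, -, -, hsc⟩ := f_XAU n C F (E C β) hXtr
  have h1 := hconj g hg t _ hXa
  apply LinearEquiv.ext
  intro v
  rw [h1 v, hXb v, hgc, (hsc c).2 t v]

end Pool.Agent.EXC
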